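import Pool.Agent.helper9.HQ.Spec

set_option autoImplicit false
set_option linter.unusedVariables false

open scoped Classical

namespace Pool.Agent.helper9.HQ

open Finset
open Pool.Agent.helper65.HC (V IsEig IsTop lam)

noncomputable section

theorem CUT_split {d : ℕ} (U : Fam d) (f : Finset (Fin d) → ℝ) : N (lo U) f + N (hi U) f = N U f := by
  unfold N lo hi
  have h : U.filter (fun x => 3 ≤ x.card) = U.filter (fun x => ¬ x.card ≤ 2) := by
    apply Finset.filter_congr
    intro x _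
    omega
  rw [h]
  exact Finset.sum_filter_add_sum_filter_not U (fun x => x.card ≤ 2) (fun x => f x ^ 2)

/-- the upper neighbours -/
theorem CUT_up {d : ℕ} (U : Fam d) (hU : Dn U) (f : Finset (Fin d) → ℝ) :
    ∑ x ∈ lo U, ∑ i ∈ univ.filter (fun i => i ∉ x ∧ insert i x ∈ U), f x * f (insert i x) =
      ∑ y ∈ U.filter (fun y => y.card ≤ 3), ∑ i ∈ y, f y * f (y.erase i) := by
  rw [Finset.sum_sigma', Finset.sum_sigma']
  refine Finset.sum_bij' (fun p _ => ⟨insert p.2 p.1, p.2⟩) (fun p _ => ⟨p.1.erase p.2, p.2⟩) ?_ ?_ ?_ ?_ ?_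
  · rintro ⟨x, i⟩ hp
    simp only [Finset.mem_sigma, Finset.mem_filter, lo, Finset.mem_univ, true_and] at hp ⊢
    obtain ⟨⟨hx, hc⟩, hi, hix⟩ := hp
    refine ⟨⟨hix, ?_⟩, Finset.mem_insert_self _ _⟩
    rw [Finset.card_insert_of_notMem hi]
    omega
  · rintro ⟨y, i⟩ hp
    simp only [Finset.mem_sigma, Finset.mem_filter, lo, Finset.mem_univ, true_and] at hp ⊢
    obtain ⟨⟨hy, hc⟩, hi⟩ := hp
    refine ⟨⟨hU y hy _ (Finset.erase_subset _ _), ?_⟩, Finset.notMem_erase _ _, ?_⟩
    · rw [Finset.card_erase_of_mem hi]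
      omega
    · rw [Finset.insert_erase hi]
      exact hy
  · rintro ⟨x, i⟩ hp
    simp only [Finset.mem_sigma, Finset.mem_filter, lo, Finset.mem_univ, true_and] at hp
    obtain ⟨⟨hx, hc⟩, hi, hix⟩ := hp
    simp only [Finset.erase_insert hi]
  · rintro ⟨y, i⟩ hp
    simp only [Finset.mem_sigma, Finset.mem_filter, lo, Finset.mem_univ, true_and] at hp
    obtain ⟨⟨hy, hc⟩, hi⟩ := hp
    simp only [Finset.insert_erase hi]
  · rintro ⟨x, i⟩ hp
    simp only [Finset.mem_sigma, Finset.mem_filter, lo, Finset.mem_univ, true_and] at hp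
    obtain ⟨⟨hx, hc⟩, hi, hix⟩ := hp
    simp only [Finset.erase_insert hi]
    ring

theorem CUT_three {d : ℕ} (U : Fam d) (F : Finset (Fin d) → ℝ) :
    ∑ y ∈ U.filter (fun y => y.card ≤ 3), F y = ∑ y ∈ lo U, F y + ∑ y ∈ U.filter (fun y => y.card = 3), F y := by
  rw [← Finset.sum_filter_add_sum_filter_not (U.filter (fun y => y.card ≤ 3)) (fun x => x.card ≤ 2) F,
    Finset.filter_filter, Finset.filter_filter]
  have h1 : U.filter (fun y => y.card ≤ 3 ∧ y.card ≤ 2) = lo U := by
    unfold lo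
    apply Finset.filter_congr
    intro x _
    omega
  have h2 : U.filter (fun y => y.card ≤ 3 ∧ ¬ y.card ≤ 2) = U.filter (fun y => y.card = 3) := by
    apply Finset.filter_congr
    intro x _
    omega
  rw [h1, h2]

/-- the mixed term -/
def CUT_B {d : ℕ} (U : Fam d) (f : Finset (Fin d) → ℝ) : ℝ :=
  ∑ y ∈ U.filter (fun y => y.card = 3), ∑ i ∈ y, f y * f (y.erase i)

theorem CUT_eq {d : ℕ} (U : Fam d) (hU : Dn U) (l : ℝ) (f : Finset (Fin d) → ℝ) (h : Eig U l f) :
    l * N (lo U) f = E (lo U) f + CUT_B U f := by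
  have h1 : l * N (lo U) f = ∑ x ∈ lo U, ∑ i ∈ x, f x * f (x.erase i) +
      ∑ x ∈ lo U, ∑ i ∈ univ.filter (fun i => i ∉ x ∧ insert i x ∈ U), f x * f (insert i x) := by
    unfold N
    rw [Finset.mul_sum, ← Finset.sum_add_distrib]
    apply Finset.sum_congr rfl
    intro x hx
    have hx' : x ∈ U := by
      unfold lo at hx
      exact (Finset.mem_filter.1 hx).1
    rw [← Finset.mul_sum, ← Finset.mul_sum, ← mul_add, ← h.eq x hx']
    ring
  rw [h1, CUT_up U hU f, CUT_three]
  unfold E CUT_B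
  ring

theorem CUT_bound {d : ℕ} (U : Fam d) (hU : Dn U) (l : ℝ) (f : Finset (Fin d) → ℝ) (h : Eig U l f) (t : ℝ) (ht : 0 < t) :
    2 * CUT_B U f ≤ l * (t * N (lo U) f + t⁻¹ * N (hi U) f) := by
  set g : Finset (Fin d) → ℝ := fun x => if x.card ≤ 2 then Real.sqrt t * f x else (Real.sqrt t)⁻¹ * f x with hg
  have hs : 0 < Real.sqrt t := Real.sqrt_pos.2 ht
  have hss : Real.sqrt t ^ 2 = t := Real.sq_sqrt ht.le
  have hg0 : ∀ x, 0 ≤ g x := by
    intro x
    have := h.nn x
    rw [hg]
    dsimp only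
    split_ifs
    · positivity
    · positivity
  have h1 := h.le g
  have h2 : N U g = t * N (lo U) f + t⁻¹ * N (hi U) f := by
    rw [← CUT_split U g]
    unfold N
    rw [Finset.mul_sum, Finset.mul_sum]
    have e1 : ∀ x ∈ lo U, g x ^ 2 = t * f x ^ 2 := by
      intro x hx
      have hc : x.card ≤ 2 := by
        unfold lo at hx
        exact (Finset.mem_filter.1 hx).2
      rw [hg]
      dsimp only
      rw [if_pos hc, mul_pow, hss]
    have e2 : ∀ x ∈ hi U, g x ^ 2 = t⁻¹ * f x ^ 2 := by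
      intro x hx
      have hc : ¬ x.card ≤ 2 := by
        unfold hi at hx
        have := (Finset.mem_filter.1 hx).2
        omega
      rw [hg]
      dsimp only
      rw [if_neg hc, mul_pow, inv_pow, hss]
    rw [Finset.sum_congr rfl e1, Finset.sum_congr rfl e2]
  have h3 : 2 * CUT_B U f ≤ E U g := by
    unfold E CUT_B
    apply mul_le_mul_of_nonneg_left _ (by norm_num)
    have e3 : ∑ y ∈ U.filter (fun y => y.card = 3), ∑ i ∈ y, f y * f (y.erase i) =
        ∑ y ∈ U.filter (fun y => y.card = 3), ∑ i ∈ y, g y * g (y.erase i) := by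
      apply Finset.sum_congr rfl
      intro y hy
      have hc := (Finset.mem_filter.1 hy).2
      apply Finset.sum_congr rfl
      intro i hi
      have hc2 : (y.erase i).card ≤ 2 := by
        rw [Finset.card_erase_of_mem hi]
        omega
      have hc3 : ¬ y.card ≤ 2 := by omega
      rw [hg]
      dsimp only
      rw [if_pos hc2, if_neg hc3]
      field_simp
    rw [e3]
    apply Finset.sum_le_sum_of_subset_of_nonneg (Finset.filter_subset _ _)
    intro x _ _
    exact Finset.sum_nonneg (fun i _ => mul_nonneg (hg0 _) (hg0 _))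
  rw [h2] at h1
  exact h3.trans h1

theorem CUT : CUT_stmt := by
  intro d U l f L q hU h hl hq hq3 hN hLe
  have hsum : N (lo U) f + N (hi U) f = 1 := by rw [CUT_split, h.nrm]
  set N1 := N (lo U) f with hN1
  set N2 := N (hi U) f with hN2
  have hN1q : 1 / 4 ≤ N1 := by linarith
  have hN1p : 0 < N1 := by linarith
  have heq := CUT_eq U hU l f h
  rw [← hN1] at heq
  have hE := hLe f
  rw [← hN1] at hE
  have key : ∀ t : ℝ, 0 < t → 4 * q ≤ t ^ 2 → l * (1 - t) ≤ L := by
    intro t ht htq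
    have hb := CUT_bound U hU l f h t ht
    rw [← hN1, ← hN2] at hb
    have h1 : N2 ≤ t ^ 2 * N1 := by
      have : N2 ≤ 4 * q * N1 := by nlinarith
      nlinarith
    have h2 : t⁻¹ * N2 ≤ t * N1 := by
      rw [inv_mul_le_iff₀ ht]
      nlinarith
    have h3 : l * (t * N1 + t⁻¹ * N2) ≤ l * (2 * (t * N1)) := by
      apply mul_le_mul_of_nonneg_left _ hl
      linarith
    have h4 : l * (1 - t) * N1 ≤ L * N1 := by nlinarith
    exact le_of_mul_le_mul_right h4 hN1p
  by_contra hcon
  push Not at hcon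
  set δ := l * (1 - 2 * √q) - L with hδ
  have hδ0 : 0 < δ := by rw [hδ]; linarith
  set ε := δ / (2 * (l + 1)) with hε
  have hε0 : 0 < ε := by positivity
  have hsq : 0 ≤ √q := Real.sqrt_nonneg q
  have hsqq : √q ^ 2 = q := Real.sq_sqrt hq
  have h5 := key (2 * √q + ε) (by positivity) (by nlinarith)
  have h6 : l * ε ≤ δ / 2 := by
    rw [hε]
    rw [mul_div_assoc', div_le_div_iff₀ (by positivity) (by norm_num)]
    nlinarith
  have h7 : l * (1 - (2 * √q + ε)) = l * (1 - 2 * √q) - l * ε := by ring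
  rw [h7] at h5
  linarith

end

end Pool.Agent.helper9.HQ
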